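import Pool.Agent.Helper43_HAM.Stmts

/-!
# TCO, TCX: composition of networks, networks in a context
-/

namespace Pool.Agent.HAM.H39

open Pool.Agent.HAM

theorem app_append (w w' : List Op) (F : List (Fin 3) → ZMod 2) :
    ∀ u, app (w ++ w') F u = app w (app w' F) u := by
  induction w with
  | nil => intro u; rfl
  | cons o w ih =>
    intro u
    cases o with
    | rot k => simp only [List.cons_append, app]; exact ih _
    | vtx i a b =>
      simp only [List.cons_append, app]
      refine Finset.sum_congr rfl fun v _ => ?_
      split_ifs
      · rfl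
      · exact ih _

theorem shift_append (k : ℕ) (w w' : List Op) : shift k (w ++ w') = shift k w ++ shift k w' := by
  simp [shift]

theorem shift_shift (k j : ℕ) (w : List Op) : shift k (shift j w) = shift (k + j) w := by
  induction w with
  | nil => rfl
  | cons o w ih =>
    cases o with
    | rot i =>
      show Op.rot i :: shift k (shift j w) = Op.rot i :: shift (k + j) w
      rw [ih]
    | vtx i a b =>
      show Op.vtx (i + j + k) a b :: shift k (shift j w) = Op.vtx (i + (k + j)) a b :: shift (k + j) w
      rw [ih]
      simp only [List.cons.injEq, Op.vtx.injEq, and_true]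
      omega

theorem noRot_append {w w' : List Op} (h : NoRot w) (h' : NoRot w') : NoRot (w ++ w') := by
  intro k hk
  rcases List.mem_append.1 hk with hk | hk
  · exact h k hk
  · exact h' k hk

theorem noRot_shift {w : List Op} (k : ℕ) (h : NoRot w) : NoRot (shift k w) := by
  intro j hj
  simp only [shift, List.mem_map] at hj
  obtain ⟨o, ho, he⟩ := hj
  cases o with
  | rot i =>
    exact h i ho
  | vtx i a b => exact absurd he (by simp)

theorem legal_append : ∀ (w w' : List Op) (n n' n'' : ℕ), legal w n n' → legal w' n' n'' →
    legal (w ++ w') n n''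
  | [], w', n, n', n'', h, h' => by
    simp only [legal] at h
    subst h
    exact h'
  | .rot k :: w, w', n, n', n'', h, h' => by
    simp only [legal, List.cons_append] at h ⊢
    exact legal_append w w' n n' n'' h h'
  | .vtx i a b :: w, w', n, n', n'', h, h' => by
    simp only [legal, List.cons_append] at h ⊢
    exact ⟨h.1, h.2.1, h.2.2.1, h.2.2.2.1, legal_append w w' _ n' n'' h.2.2.2.2 h'⟩

theorem legal_shift (k m : ℕ) : ∀ (w : List Op) (n n' : ℕ), legal w n n' →
    legal (shift k w) (k + (n + m)) (k + (n' + m))
  | [], n, n', h => by
    simp only [legal] at h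
    subst h
    simp [shift, legal]
  | .rot j :: w, n, n', h => by
    simp only [legal] at h
    have := legal_shift k m w n n' h
    simpa [shift, legal] using this
  | .vtx i a b :: w, n, n', h => by
    simp only [legal] at h
    obtain ⟨h1, h2, h3, h4, h5⟩ := h
    have := legal_shift k m w _ n' h5
    have e : k + (n + m) - a + b = k + (n - a + b + m) := by omega
    show legal (.vtx (i + k) a b :: shift k w) _ _
    simp only [legal]
    refine ⟨h1, h2, by omega, by omega, ?_⟩
    rw [e]
    exact this

theorem rotate_split {α : Type*} (l r : List α) (k : ℕ) :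
    ∃ l' r' : List α, ∀ c : α, (l ++ c :: r).rotate k = l' ++ c :: r' := by
  classical
  have hlen : ∀ c : α, (l ++ c :: r).length = l.length + r.length + 1 := by
    intro c; simp; omega
  set n := l.length + r.length + 1 with hn
  set j := k % n with hj
  have hjn : j < n := Nat.mod_lt _ (by omega)
  by_cases h : j ≤ l.length
  · refine ⟨l.drop j, r ++ l.take j, fun c => ?_⟩
    rw [← List.rotate_mod, hlen c, ← hj, List.rotate_eq_drop_append_take (by rw [hlen]; omega),
      List.drop_append_of_le_length h, List.take_append_of_le_length h]
    simp
  · refine ⟨r.drop (j - l.length - 1) ++ l, r.take (j - l.length - 1), fun c => ?_⟩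
    obtain ⟨i, hi⟩ : ∃ i, j = l.length + (i + 1) := ⟨j - l.length - 1, by omega⟩
    have hi' : j - l.length - 1 = i := by omega
    rw [← List.rotate_mod, hlen c, ← hj, List.rotate_eq_drop_append_take (by rw [hlen]; omega),
      hi', hi, List.drop_append, List.take_append]
    have h1 : l.drop (l.length + (i + 1)) = [] := List.drop_eq_nil_of_le (by omega)
    have h2 : l.take (l.length + (i + 1)) = l := List.take_of_length_le (by omega)
    have h3 : l.length + (i + 1) - l.length = i + 1 := by omega
    rw [h1, h2, h3]
    simp

/-- **Evenness** is preserved by words. -/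
theorem evenF_app : ∀ (w : List Op) (F : List (Fin 3) → ZMod 2), EvenF F → EvenF (app w F)
  | [], F, h => h
  | .rot k :: w, F, h => by
    intro l r
    obtain ⟨l', r', hs⟩ := rotate_split l r k (α := Fin 3)
    simp only [app]
    simp only [hs]
    exact evenF_app w F h l' r'
  | .vtx i a b :: w, F, h => by
    have ih := evenF_app w F h
    intro l r
    simp only [app]
    rw [Finset.sum_comm]
    by_cases h1 : l.length < i
    · -- the place is to the left
      refine Finset.sum_eq_zero fun v _ => ?_
      obtain ⟨j, hj⟩ : ∃ j, i = l.length + (j + 1) := ⟨i - l.length - 1, by omega⟩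
      have e1 : ∀ c : Fin 3, (l ++ c :: r).take i = l ++ c :: r.take j := by
        intro c
        rw [hj, List.take_append, List.take_of_length_le (by omega)]
        have : l.length + (j + 1) - l.length = j + 1 := by omega
        rw [this]; simp
      have e2 : ∀ (c : Fin 3) (m : ℕ), (l ++ c :: r).drop (i + m) = r.drop (j + m) := by
        intro c m
        rw [hj, List.drop_append, List.drop_eq_nil_of_le (by omega)]
        have : l.length + (j + 1) + m - l.length = j + m + 1 := by omega
        rw [this]; simp
      have e3 : ∀ c : Fin 3, (l ++ c :: r).drop i = r.drop j := fun c => by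
        simpa using e2 c 0
      simp only [e1, e2, e3]
      by_cases hv : v ∈ (r.drop j).take a
      · simp [hv]
      · simp only [hv, if_false]
        have := ih l (r.take j ++ (List.replicate b v ++ r.drop (j + a)))
        simpa [List.append_assoc] using this
    · by_cases h2 : l.length < i + a
      · -- the place is absorbed
        refine Finset.sum_eq_zero fun v _ => ?_
        obtain ⟨j, hj⟩ : ∃ j, l.length = i + j := ⟨l.length - i, by omega⟩
        obtain ⟨m, hm⟩ : ∃ m, a = j + (m + 1) := ⟨a - j - 1, by omega⟩
        have e1 : ∀ c : Fin 3, (l ++ c :: r).take i = l.take i := by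
          intro c
          rw [List.take_append_of_le_length (by omega)]
        have e2 : ∀ c : Fin 3, (l ++ c :: r).drop (i + a) = r.drop m := by
          intro c
          rw [List.drop_append, List.drop_eq_nil_of_le (by omega)]
          have : i + a - l.length = m + 1 := by omega
          rw [this]; simp
        have e3 : ∀ c : Fin 3, ((l ++ c :: r).drop i).take a = l.drop i ++ c :: r.take m := by
          intro c
          rw [List.drop_append_of_le_length (by omega), List.take_append,
            List.take_of_length_le (by rw [List.length_drop]; omega)]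
          have : a - (l.drop i).length = m + 1 := by rw [List.length_drop]; omega
          rw [this]; simp
        simp only [e1, e2, e3]
        set X := app w F (l.take i ++ List.replicate b v ++ r.drop m) with hX
        by_cases hv : v ∈ l.drop i ++ r.take m
        · have : ∀ c : Fin 3, v ∈ l.drop i ++ c :: r.take m := by
            intro c
            rcases List.mem_append.1 hv with hv | hv
            · exact List.mem_append_left _ hv
            · exact List.mem_append_right _ (List.mem_cons_of_mem _ hv)
          simp [this]
        · have : ∀ c : Fin 3, (v ∈ l.drop i ++ c :: r.take m) ↔ v = c := by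
            intro c
            rw [List.mem_append, not_or] at hv
            rw [List.mem_append, List.mem_cons]
            tauto
          simp only [this]
          have hX2 : X + X = 0 := CharTwo.add_self_eq_zero X
          fin_cases v <;> simp [Fin.sum_univ_three, hX2]
      · -- the place is to the right
        refine Finset.sum_eq_zero fun v _ => ?_
        obtain ⟨j, hj⟩ : ∃ j, l.length = i + a + j := ⟨l.length - (i + a), by omega⟩
        have e1 : ∀ c : Fin 3, (l ++ c :: r).take i = l.take i := by
          intro c
          rw [List.take_append_of_le_length (by omega)]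
        have e2 : ∀ c : Fin 3, (l ++ c :: r).drop (i + a) = l.drop (i + a) ++ c :: r := by
          intro c
          rw [List.drop_append_of_le_length (by omega)]
        have e3 : ∀ c : Fin 3, ((l ++ c :: r).drop i).take a = (l.drop i).take a := by
          intro c
          rw [List.drop_append_of_le_length (by omega),
            List.take_append_of_le_length (by rw [List.length_drop]; omega)]
        simp only [e1, e2, e3]
        by_cases hv : v ∈ (l.drop i).take a
        · simp [hv]
        · simp only [hv, if_false]
          have := ih (l.take i ++ List.replicate b v ++ l.drop (i + a)) r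
          simpa [List.append_assoc] using this

/-- composition of two networks -/
theorem net_comp {Ω₀ Ω₁ Ω₂ : Type} [DecidableEq Ω₀] [Fintype Ω₁]
    [DecidableEq Ω₁] [Fintype Ω₂] (π : Ω₁ → Ω₀) (π' : Ω₂ → Ω₁)
    (U : List (Ω₀ → Fin 3)) (U' : List (Ω₁ → Fin 3)) (U'' : List (Ω₂ → Fin 3)) (w w' : List Op)
    (h : Net π U U' w) (h' : Net π' U' U'' w') : Net (π ∘ π') U U'' (w ++ w') := by
  obtain ⟨h1, h2, h3⟩ := h
  obtain ⟨h1', h2', h3'⟩ := h'
  refine ⟨noRot_append h1 h1', legal_append _ _ _ _ _ h2 h2', ?_⟩
  intro F hF l r ω
  rw [shift_append, app_append, h3 _ (evenF_app _ _ hF) l r ω]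
  have e : ∀ ω' : Ω₁, (if π ω' = ω then app (shift l.length w') F
      (l ++ (U'.map (· ω') ++ r)) else 0) =
      ∑ ω'' : Ω₂, if π' ω'' = ω' then (if π (π' ω'') = ω then
        F (l ++ (U''.map (· ω'') ++ r)) else 0) else 0 := by
    intro ω'
    split_ifs with hω
    · rw [h3' F hF l r ω']
      refine Finset.sum_congr rfl fun ω'' _ => ?_
      by_cases hh : π' ω'' = ω'
      · rw [if_pos hh, if_pos hh, if_pos (by rw [hh]; exact hω)]
      · rw [if_neg hh, if_neg hh]
    · symm
      refine Finset.sum_eq_zero fun ω'' _ => ?_
      by_cases hh : π' ω'' = ω'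
      · rw [if_pos hh, if_neg (by rw [hh]; exact hω)]
      · rw [if_neg hh]
  rw [Finset.sum_congr rfl fun ω' _ => e ω', Finset.sum_comm]
  refine Finset.sum_congr rfl fun ω'' _ => ?_
  rw [Finset.sum_ite_eq]
  simp

/-- **TCO** -/
theorem tco : TcoStmt := by
  intro Ω₀ Ω₁ Ω₂ _ _ _ _ _ _ π π' U U' U'' h h'
  obtain ⟨w, hw⟩ := h
  obtain ⟨w', hw'⟩ := h'
  exact ⟨w ++ w', net_comp π π' U U' U'' w w' hw hw'⟩

/-- **TCX** -/
theorem tcx : TcxStmt := by
  intro Ω Ω' _ _ _ _ π U L R U' h
  obtain ⟨w, h1, h2, h3⟩ := h
  refine ⟨shift L.length w, noRot_shift _ h1, ?_, ?_⟩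
  · have := legal_shift L.length R.length w _ _ h2
    simpa using this
  · intro F hF l r ω
    rw [shift_shift]
    have hl : l.length + L.length = (l ++ L.map (· ω)).length := by simp
    have e1 : l ++ ((L ++ (U ++ R)).map (· ω) ++ r) =
        (l ++ L.map (· ω)) ++ (U.map (· ω) ++ (R.map (· ω) ++ r)) := by
      simp [List.append_assoc]
    rw [hl, e1, h3 F hF _ _ ω]
    refine Finset.sum_congr rfl fun ω' _ => ?_
    by_cases hh : π ω' = ω
    · rw [if_pos hh, if_pos hh]
      congr 1
      subst hh
      simp [List.append_assoc, Function.comp_def]
    · rw [if_neg hh, if_neg hh]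

end Pool.Agent.HAM.H39
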